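import Pool.Agent.Helper41.KE.AdmD
import Pool.Agent.Helper41.KE.Reps

set_option autoImplicit false
set_option maxRecDepth 100000

/-!
The representatives are admissible, part 1.
-/

namespace KE

theorem aa16 : allA rb16 = true := by decide +kernel

theorem aa17 : allA rb17 = true := by decide +kernel

theorem aa18 : allA rb18 = true := by decide +kernel

theorem aa19 : allA rb19 = true := by decide +kernel

theorem aa20 : allA rb20 = true := by decide +kernel

theorem aa21 : allA rb21 = true := by decide +kernel

theorem aa22 : allA rb22 = true := by decide +kernel

theorem aa23 : allA rb23 = true := by decide +kernel

theorem aa24 : allA rb24 = true := by decide +kernel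

theorem aa25 : allA rb25 = true := by decide +kernel

theorem aa26 : allA rb26 = true := by decide +kernel

theorem aa27 : allA rb27 = true := by decide +kernel

theorem aa28 : allA rb28 = true := by decide +kernel

theorem aa29 : allA rb29 = true := by decide +kernel

theorem aa30 : allA rb30 = true := by decide +kernel

theorem aa31 : allA rb31 = true := by decide +kernel

end KE
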