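import Pool.Agent.Helper41.KE.AdmD
import Pool.Agent.Helper41.KE.Reps

set_option autoImplicit false
set_option maxRecDepth 100000

/-!
The representatives are admissible, part 2.
-/

namespace KE

theorem aa32 : allA rb32 = true := by decide +kernel

theorem aa33 : allA rb33 = true := by decide +kernel

theorem aa34 : allA rb34 = true := by decide +kernel

theorem aa35 : allA rb35 = true := by decide +kernel

theorem aa36 : allA rb36 = true := by decide +kernel

theorem aa37 : allA rb37 = true := by decide +kernel

theorem aa38 : allA rb38 = true := by decide +kernel

theorem aa39 : allA rb39 = true := by decide +kernel

theorem aa40 : allA rb40 = true := by decide +kernel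

theorem aa41 : allA rb41 = true := by decide +kernel

theorem aa42 : allA rb42 = true := by decide +kernel

theorem aa43 : allA rb43 = true := by decide +kernel

theorem aa44 : allA rb44 = true := by decide +kernel

theorem aa45 : allA rb45 = true := by decide +kernel

theorem aa46 : allA rb46 = true := by decide +kernel

theorem aa47 : allA rb47 = true := by decide +kernel

end KE
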