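import Pool.Agent.Helper41.KE.AdmD
import Pool.Agent.Helper41.KE.Reps

set_option autoImplicit false
set_option maxRecDepth 100000

/-!
The representatives are admissible, part 3.
-/

namespace KE

theorem aa48 : allA rb48 = true := by decide +kernel

theorem aa49 : allA rb49 = true := by decide +kernel

theorem aa50 : allA rb50 = true := by decide +kernel

theorem aa51 : allA rb51 = true := by decide +kernel

theorem aa52 : allA rb52 = true := by decide +kernel

theorem aa53 : allA rb53 = true := by decide +kernel

theorem aa54 : allA rb54 = true := by decide +kernel

theorem aa55 : allA rb55 = true := by decide +kernel

theorem aa56 : allA rb56 = true := by decide +kernel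

theorem aa57 : allA rb57 = true := by decide +kernel

theorem aa58 : allA rb58 = true := by decide +kernel

theorem aa59 : allA rb59 = true := by decide +kernel

theorem aa60 : allA rb60 = true := by decide +kernel

theorem aa61 : allA rb61 = true := by decide +kernel

theorem aa62 : allA rb62 = true := by decide +kernel

theorem aa63 : allA rb63 = true := by decide +kernel

end KE
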