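import Pool.Agent.Helper41.KE.Adm0
import Pool.Agent.Helper41.KE.Adm1
import Pool.Agent.Helper41.KE.Adm2
import Pool.Agent.Helper41.KE.Adm3

set_option autoImplicit false

/-!
The representatives are admissible.
-/

namespace KE

theorem adm_reps7 : ∀ m ∈ reps7, KC.Adm m := by
  refine forall_reps7 ?_
  unfold blks
  simp only [List.forall_mem_cons]
  exact ⟨allA_spec _ aa0, allA_spec _ aa1, allA_spec _ aa2, allA_spec _ aa3, allA_spec _ aa4, allA_spec _ aa5, allA_spec _ aa6, allA_spec _ aa7, allA_spec _ aa8, allA_spec _ aa9, allA_spec _ aa10, allA_spec _ aa11, allA_spec _ aa12, allA_spec _ aa13, allA_spec _ aa14, allA_spec _ aa15, allA_spec _ aa16, allA_spec _ aa17, allA_spec _ aa18, allA_spec _ aa19, allA_spec _ aa20, allA_spec _ aa21, allA_spec _ aa22, allA_spec _ aa23, allA_spec _ aa24, allA_spec _ aa25, allA_spec _ aa26, allA_spec _ aa27, allA_spec _ aa28, allA_spec _ aa29, allA_spec _ aa30, allA_spec _ aa31, allA_spec _ aa32, allA_spec _ aa33, allA_spec _ aa34, allA_spec _ aa35,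 allA_spec _ aa36, allA_spec _ aa37, allA_spec _ aa38, allA_spec _ aa39, allA_spec _ aa40, allA_spec _ aa41, allA_spec _ aa42, allA_spec _ aa43, allA_spec _ aa44, allA_spec _ aa45, allA_spec _ aa46, allA_spec _ aa47, allA_spec _ aa48, allA_spec _ aa49, allA_spec _ aa50, allA_spec _ aa51, allA_spec _ aa52, allA_spec _ aa53, allA_spec _ aa54, allA_spec _ aa55, allA_spec _ aa56, allA_spec _ aa57, allA_spec _ aa58, allA_spec _ aa59, allA_spec _ aa60, allA_spec _ aa61, allA_spec _ aa62, allA_spec _ aa63,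
    fun _ h => absurd h List.not_mem_nil⟩

end KE
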