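import Pool.Agent.Helper41.KE.Low
import Pool.Agent.Helper41.KE.D0
import Pool.Agent.Helper41.KE.D1
import Pool.Agent.Helper41.KE.D2
import Pool.Agent.Helper41.KE.D3
import Pool.Agent.Helper41.KE.D4
import Pool.Agent.Helper41.KE.D5
import Pool.Agent.Helper41.KE.D6
import Pool.Agent.Helper41.KE.D7
import Pool.Agent.Helper41.KE.D8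
import Pool.Agent.Helper41.KE.D9
import Pool.Agent.Helper41.KE.D10
import Pool.Agent.Helper41.KE.D11

set_option autoImplicit false
set_option maxRecDepth 20000

/-!
The checks for all graphs on six vertices.
-/

namespace KE

theorem ck6 : ∀ H ∈ reps6, ∃ es, chk6 T7 H es = true := by
  unfold reps6
  simp only [List.forall_mem_cons]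
  exact ⟨⟨_, c6_0⟩, ⟨_, c6_1⟩, ⟨_, c6_2⟩, ⟨_, c6_3⟩, ⟨_, c6_4⟩, ⟨_, c6_5⟩, ⟨_, c6_6⟩, ⟨_, c6_7⟩, ⟨_, c6_8⟩, ⟨_, c6_9⟩,
    ⟨_, c6_10⟩, ⟨_, c6_11⟩, ⟨_, c6_12⟩, ⟨_, c6_13⟩, ⟨_, c6_14⟩, ⟨_, c6_15⟩, ⟨_, c6_16⟩, ⟨_, c6_17⟩, ⟨_, c6_18⟩, ⟨_, c6_19⟩, ⟨_, c6_20⟩, ⟨_, c6_21⟩, ⟨_, c6_22⟩, ⟨_, c6_23⟩, ⟨_, c6_24⟩, ⟨_, c6_25⟩, ⟨_, c6_26⟩, ⟨_, c6_27⟩, ⟨_, c6_28⟩, ⟨_, c6_29⟩, ⟨_, c6_30⟩, ⟨_, c6_31⟩, ⟨_, c6_32⟩, ⟨_, c6_33⟩, ⟨_, c6_34⟩, ⟨_, c6_35⟩, ⟨_, c6_36⟩, ⟨_, c6_37⟩, ⟨_, c6_38⟩, ⟨_, c6_39⟩, ⟨_, c6_40⟩, ⟨_, c6_41⟩, ⟨_, c6_42⟩, ⟨_, c6_43⟩, ⟨_, c6_44⟩, ⟨_, c6_45⟩, ⟨_, c6_46⟩, ⟨_, c6_47⟩, ⟨_, c6_48⟩, ⟨_, c6_49⟩, ⟨_, c6_50⟩, ⟨_, c6_51⟩, ⟨_,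 c6_52⟩, ⟨_, c6_53⟩, ⟨_, c6_54⟩, ⟨_, c6_55⟩, ⟨_, c6_56⟩, ⟨_, c6_57⟩, ⟨_, c6_58⟩, ⟨_, c6_59⟩, ⟨_, c6_60⟩, ⟨_, c6_61⟩, ⟨_, c6_62⟩, ⟨_, c6_63⟩, ⟨_, c6_64⟩, ⟨_, c6_65⟩, ⟨_, c6_66⟩, ⟨_, c6_67⟩, ⟨_, c6_68⟩, ⟨_, c6_69⟩, ⟨_, c6_70⟩, ⟨_, c6_71⟩, ⟨_, c6_72⟩, ⟨_, c6_73⟩, ⟨_, c6_74⟩, ⟨_, c6_75⟩, ⟨_, c6_76⟩, ⟨_, c6_77⟩, ⟨_, c6_78⟩, ⟨_, c6_79⟩, ⟨_, c6_80⟩, ⟨_, c6_81⟩, ⟨_, c6_82⟩, ⟨_, c6_83⟩, ⟨_, c6_84⟩, ⟨_, c6_85⟩, ⟨_, c6_86⟩, ⟨_, c6_87⟩, ⟨_, c6_88⟩, ⟨_, c6_89⟩, ⟨_, c6_90⟩, ⟨_, c6_91⟩, ⟨_, c6_92⟩, ⟨_, c6_93⟩, ⟨_, c6_94⟩, ⟨_, c6_95⟩, ⟨_, c6_96⟩, ⟨_, c6_97⟩, ⟨_, c6_98⟩, ⟨_, c6_99⟩, ⟨_, c6_100⟩, ⟨_, c6_101⟩, ⟨_, c6_102⟩, ⟨_, c6_103⟩, ⟨_, c6_104⟩,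 ⟨_, c6_105⟩,
    fun _ h => absurd h (List.not_mem_nil)⟩

end KE
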