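import Pool.Agent.Helper41.KE.Tree
import Pool.Agent.Helper41.KE.Reps

set_option autoImplicit false
set_option maxRecDepth 20000

/-!
The tree and the blocks agree.
-/

namespace KE

theorem fl0 : flat u0 = rb0 := by decide +kernel
theorem fl1 : flat u1 = rb1 := by decide +kernel
theorem fl2 : flat u2 = rb2 := by decide +kernel
theorem fl3 : flat u3 = rb3 := by decide +kernel
theorem fl4 : flat u4 = rb4 := by decide +kernel
theorem fl5 : flat u5 = rb5 := by decide +kernel
theorem fl6 : flat u6 = rb6 := by decide +kernel
theorem fl7 : flat u7 = rb7 := by decide +kernel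
theorem fl8 : flat u8 = rb8 := by decide +kernel
theorem fl9 : flat u9 = rb9 := by decide +kernel
theorem fl10 : flat u10 = rb10 := by decide +kernel
theorem fl11 : flat u11 = rb11 := by decide +kernel
theorem fl12 : flat u12 = rb12 := by decide +kernel
theorem fl13 : flat u13 = rb13 := by decide +kernel
theorem fl14 : flat u14 = rb14 := by decide +kernel
theorem fl15 : flat u15 = rb15 := by decide +kernel
theorem fl16 : flat u16 = rb16 := by decide +kernel
theorem fl17 : flat u17 = rb17 := by decide +kernel
theorem fl18 : flat u18 = rb18 := by decide +kernel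
theorem fl19 : flat u19 = rb19 := by decide +kernel
theorem fl20 : flat u20 = rb20 := by decide +kernel
theorem fl21 : flat u21 = rb21 := by decide +kernel
theorem fl22 : flat u22 = rb22 := by decide +kernel
theorem fl23 : flat u23 = rb23 := by decide +kernel
theorem fl24 : flat u24 = rb24 := by decide +kernel
theorem fl25 : flat u25 = rb25 := by decide +kernel
theorem fl26 : flat u26 = rb26 := by decide +kernel
theorem fl27 : flat u27 = rb27 := by decide +kernel
theorem fl28 : flat u28 = rb28 := by decide +kernel
theorem fl29 : flat u29 = rb29 := by decide +kernel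
theorem fl30 : flat u30 = rb30 := by decide +kernel
theorem fl31 : flat u31 = rb31 := by decide +kernel
theorem fl32 : flat u32 = rb32 := by decide +kernel
theorem fl33 : flat u33 = rb33 := by decide +kernel
theorem fl34 : flat u34 = rb34 := by decide +kernel
theorem fl35 : flat u35 = rb35 := by decide +kernel
theorem fl36 : flat u36 = rb36 := by decide +kernel
theorem fl37 : flat u37 = rb37 := by decide +kernel
theorem fl38 : flat u38 = rb38 := by decide +kernel
theorem fl39 : flat u39 = rb39 := by decide +kernel
theorem fl40 : flat u40 = rb40 := by decide +kernel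
theorem fl41 : flat u41 = rb41 := by decide +kernel
theorem fl42 : flat u42 = rb42 := by decide +kernel
theorem fl43 : flat u43 = rb43 := by decide +kernel
theorem fl44 : flat u44 = rb44 := by decide +kernel
theorem fl45 : flat u45 = rb45 := by decide +kernel
theorem fl46 : flat u46 = rb46 := by decide +kernel
theorem fl47 : flat u47 = rb47 := by decide +kernel
theorem fl48 : flat u48 = rb48 := by decide +kernel
theorem fl49 : flat u49 = rb49 := by decide +kernel
theorem fl50 : flat u50 = rb50 := by decide +kernel
theorem fl51 : flat u51 = rb51 := by decide +kernel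
theorem fl52 : flat u52 = rb52 := by decide +kernel
theorem fl53 : flat u53 = rb53 := by decide +kernel
theorem fl54 : flat u54 = rb54 := by decide +kernel
theorem fl55 : flat u55 = rb55 := by decide +kernel
theorem fl56 : flat u56 = rb56 := by decide +kernel
theorem fl57 : flat u57 = rb57 := by decide +kernel
theorem fl58 : flat u58 = rb58 := by decide +kernel
theorem fl59 : flat u59 = rb59 := by decide +kernel
theorem fl60 : flat u60 = rb60 := by decide +kernel
theorem fl61 : flat u61 = rb61 := by decide +kernel
theorem fl62 : flat u62 = rb62 := by decide +kernel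
theorem fl63 : flat u63 = rb63 := by decide +kernel

theorem flat_T7 : ∀ m ∈ flat T7, m ∈ reps7 := by
  intro m hm
  have key : ∃ b ∈ blks, m ∈ b := by
    simp only [T7, flat, List.mem_append, fl0, fl1, fl2, fl3, fl4, fl5, fl6, fl7, fl8, fl9, fl10, fl11, fl12, fl13, fl14, fl15, fl16, fl17, fl18, fl19, fl20, fl21, fl22, fl23, fl24, fl25, fl26, fl27, fl28, fl29, fl30, fl31, fl32, fl33, fl34, fl35, fl36, fl37, fl38, fl39, fl40, fl41, fl42, fl43, fl44, fl45, fl46, fl47, fl48, fl49, fl50, fl51, fl52, fl53, fl54, fl55, fl56, fl57, fl58, fl59, fl60, fl61, fl62, fl63] at hm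
    simp only [blks, List.mem_cons, List.not_mem_nil, or_false, exists_eq_or_imp, exists_eq_left]
    simpa only [or_assoc] using hm
  obtain ⟨b, hb, h⟩ := key
  exact mem_reps7 hb h

end KE
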