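import Pool.Agent.Helper41.KE.Sound2
import Pool.Agent.Helper41.KE.All
import Pool.Agent.Helper41.KE.Blk

set_option autoImplicit false

/-!
Enumeration of the K4^- -free 3-graphs on seven labelled vertices: every admissible mask can be
moved into the list `reps7` by a word in the adjacent swaps.
-/

namespace KE

open KC

/-! Restriction to the first vertices. -/

theorem ba_lt {n c s : Nat} (h : St n c s) : ∀ i < n, ∀ t < 35,
    (t < c + s ↔ ba i t < c + s) := by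
  cases h <;> decide +kernel

theorem trunc_tau {n c s : Nat} (h : St n c s) (i m : Nat) (hi : i < n) :
    (tau i m) % 2 ^ (c + s) = tau i (m % 2 ^ (c + s)) := by
  obtain ⟨hn3, hn6, hs, hcs⟩ := h.lt
  refine Nat.eq_of_testBit_eq fun t => ?_
  rw [Nat.testBit_mod_two_pow]
  by_cases ht : t < 35
  · rw [tau_bit i _ t (by omega) ht, tau_bit i _ t (by omega) ht, Nat.testBit_mod_two_pow]
    have := ba_lt h i hi t ht
    by_cases h1 : t < c + s
    · rw [decide_eq_true h1, decide_eq_true (this.1 h1)]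
    · rw [decide_eq_false h1, decide_eq_false (fun h2 => h1 (this.2 h2))]
  · rw [decide_eq_false (by omega), Bool.false_and]
    exact (Nat.testBit_eq_false_of_lt (lt_of_lt_of_le (tau_lt _ _)
      (Nat.pow_le_pow_right (by norm_num) (by omega)))).symm

theorem trunc_awl {n c s : Nat} (h : St n c s) : ∀ (l : List Nat) (m : Nat),
    wokn n l = true → (awl l m) % 2 ^ (c + s) = awl l (m % 2 ^ (c + s))
  | [], _, _ => rfl
  | i :: l, m, hl => by
    obtain ⟨h1, h2⟩ := wokn_cons.1 hl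
    rw [awl, trunc_awl h l (tau i m) h2, trunc_tau h i m h1]
    rfl

theorem mod_split (m c s : Nat) :
    m % 2 ^ (c + s) = m % 2 ^ c + (m / 2 ^ c % 2 ^ s) <<< c := by
  rw [pow_add, Nat.mod_mul, Nat.shiftLeft_eq, Nat.mul_comm (2 ^ c)]

theorem step {n c s : Nat} (h : St n c s) {T : BT} {es : List Nat} {m : Nat}
    (hr : (run n c T (m % 2 ^ c) es).testBit (m / 2 ^ c % 2 ^ s) = true) :
    ∃ l, wokn n l = true ∧ (awl l m) % 2 ^ (c + s) ∈ flat T := by
  obtain ⟨hn3, hn6, hs, hcs⟩ := h.lt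
  obtain ⟨l, hl, h1⟩ := run_sound n c hn6 T _ es _ hr
  refine ⟨l, hl, ?_⟩
  rw [trunc_awl h l m hl, mod_split]
  exact h1

theorem sub_of_beq {a b L : Nat} (h : Nat.beq (Nat.land a b) a = true)
    (ha : a.testBit L = true) : b.testBit L = true := by
  have h1 := Nat.eq_of_beq_eq_true h
  rw [← h1, land_bit, Bool.and_eq_true] at ha
  exact ha.2

theorem step_low {n c s : Nat} (h : St n c s) {T : BT} {R R' : List Nat}
    (hck : ∀ H ∈ R, ∃ es, chk n c s T (q4.take c) H es = true)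
    (hT : ∀ x ∈ flat T, x ∈ R') {m : Nat} (hm : Adm m) (hR : m % 2 ^ c ∈ R) :
    ∃ l, wokn n l = true ∧ (awl l m) % 2 ^ (c + s) ∈ R' := by
  obtain ⟨hn3, hn6, hs, hcs⟩ := h.lt
  obtain ⟨es, hes⟩ := hck _ hR
  have hL2 : m / 2 ^ c % 2 ^ s < 2 ^ s := Nat.mod_lt _ (Nat.two_pow_pos _)
  have hL : m / 2 ^ c % 2 ^ s < 32768 :=
    lt_of_lt_of_le hL2 (show 2 ^ s ≤ 2 ^ 15 from Nat.pow_le_pow_right (by norm_num) hs)
  have h1 : (lk s (m % 2 ^ c) (q4.take c)).testBit (m / 2 ^ c % 2 ^ s) = true :=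
    lk_bit s _ _ hL hL2 _ (fun q hq => good_of_adm h hm q hq)
  obtain ⟨l, hl, h2⟩ := step h (sub_of_beq hes h1)
  exact ⟨l, hl, hT _ h2⟩

theorem step_six {T : BT} {R R' : List Nat}
    (hck : ∀ H ∈ R, ∃ es, chk6 T H es = true)
    (hT : ∀ x ∈ flat T, x ∈ R') {m : Nat} (hm : Adm m) (hd : MD m) (hR : m % 2 ^ 20 ∈ R) :
    ∃ l, wok l = true ∧ awl l m ∈ R' := by
  obtain ⟨es, hes⟩ := hck _ hR
  have hL2 : m / 2 ^ 20 % 2 ^ 15 < 2 ^ 15 := Nat.mod_lt _ (Nat.two_pow_pos _)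
  have hL : m / 2 ^ 20 % 2 ^ 15 < 32768 := hL2
  have h1 : (lk 15 (m % 2 ^ 20) q4).testBit (m / 2 ^ 20 % 2 ^ 15) = true :=
    lk_bit 15 _ _ hL hL2 _ (fun q hq => good_of_adm St.s6 hm q (by
      have : q4.take 20 = q4 := rfl
      rw [this]; exact hq))
  have h2 : (dg (m % 2 ^ 20) du).testBit (m / 2 ^ 20 % 2 ^ 15) = true :=
    dg_bit _ _ hL _ (fun q hq => goodD_of_MD hd q hq)
  have h3 : (Nat.land (lk 15 (m % 2 ^ 20) q4) (dg (m % 2 ^ 20) du)).testBit
      (m / 2 ^ 20 % 2 ^ 15) = true := by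
    rw [land_bit, h1, h2]; rfl
  obtain ⟨l, hl, h4⟩ := step St.s6 (sub_of_beq hes h3)
  have hw := wokn_wok le_rfl hl
  refine ⟨l, hw, hT _ ?_⟩
  have h5 : (awl l m) % 2 ^ (20 + 15) = awl l m := Nat.mod_eq_of_lt (adm_awl l hw hm).lt
  rwa [h5] at h4

theorem wok_append' {l k : List Nat} (hl : wok l = true) (hk : wok k = true) :
    wok (l ++ k) = true := wok_append hl hk

/-- Every admissible mask can be moved into the list of representatives. -/
theorem enum7 : ∀ m, KC.Adm m → ∃ l, KC.wok l = true ∧ KC.awl l m ∈ reps7 := by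
  intro m hm
  -- a vertex of minimum degree becomes the last vertex
  obtain ⟨l0, w0, d0⟩ := exists_MD m
  have a0 := adm_awl l0 w0 hm
  generalize hm0 : awl l0 m = m0 at *
  -- three vertices
  have r3 : m0 % 2 ^ 1 ∈ [0, 1] := by
    have : m0 % 2 ^ 1 < 2 := Nat.mod_lt _ (by norm_num)
    simp only [List.mem_cons, List.not_mem_nil, or_false]
    omega
  obtain ⟨l1, w1, r4⟩ := step_low St.s3 ck3 flat_T4 a0 r3
  have a1 := adm_awl l1 (wokn_wok (by omega) w1) a0
  have d1 := MD_awl d0 (by omega) w1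
  generalize hm1 : awl l1 m0 = m1 at *
  obtain ⟨l2, w2, r5⟩ := step_low St.s4 ck4 flat_T5 a1 r4
  have a2 := adm_awl l2 (wokn_wok (by omega) w2) a1
  have d2 := MD_awl d1 (by omega) w2
  generalize hm2 : awl l2 m1 = m2 at *
  obtain ⟨l3, w3, r6⟩ := step_low St.s5 ck5 flat_T6 a2 r5
  have a3 := adm_awl l3 (wokn_wok (by omega) w3) a2
  have d3 := MD_awl d2 (by omega) w3
  generalize hm3 : awl l3 m2 = m3 at *
  obtain ⟨l4, w4, r7⟩ := step_six ck6 flat_T7 a3 d3 r6
  refine ⟨l0 ++ (l1 ++ (l2 ++ (l3 ++ l4))), ?_, ?_⟩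
  · exact wok_append w0 (wok_append (wokn_wok (by omega) w1) (wok_append
      (wokn_wok (by omega) w2) (wok_append (wokn_wok (by omega) w3) w4)))
  · rw [awl_append, awl_append, awl_append, awl_append, hm0, hm1, hm2, hm3]
    exact r7

end KE
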