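import Pool.Agent.Helper41.KE.AdmD
import Pool.Agent.Helper41.KE.Reps

set_option autoImplicit false
set_option maxRecDepth 100000

/-!
The representatives are admissible, part 0.
-/

namespace KE

theorem aa0 : allA rb0 = true := by decide +kernel

theorem aa1 : allA rb1 = true := by decide +kernel

theorem aa2 : allA rb2 = true := by decide +kernel

theorem aa3 : allA rb3 = true := by decide +kernel

theorem aa4 : allA rb4 = true := by decide +kernel

theorem aa5 : allA rb5 = true := by decide +kernel

theorem aa6 : allA rb6 = true := by decide +kernel

theorem aa7 : allA rb7 = true := by decide +kernel

theorem aa8 : allA rb8 = true := by decide +kernel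

theorem aa9 : allA rb9 = true := by decide +kernel

theorem aa10 : allA rb10 = true := by decide +kernel

theorem aa11 : allA rb11 = true := by decide +kernel

theorem aa12 : allA rb12 = true := by decide +kernel

theorem aa13 : allA rb13 = true := by decide +kernel

theorem aa14 : allA rb14 = true := by decide +kernel

theorem aa15 : allA rb15 = true := by decide +kernel

end KE
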