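import Pool.Agent.Helper13.KC.Core

set_option autoImplicit false
set_option maxRecDepth 100000

/-!
Check that a mask is admissible.
-/

namespace KE

open KC

/-- Lists of 4-sets, given by the indices of their triples. -/
inductive QL
  | E
  | C (a b c d : Nat) (l : QL)

/-- As a list. -/
def QL.toL : QL → List (List Nat)
  | E => []
  | C a b c d l => [a, b, c, d] :: l.toL

open QL in
/-- The 35 4-sets. -/
def q35 : QL :=
  C 0 1 2 3 (C 0 4 5 6 (C 0 10 11 12 (C 0 20 21 22 (C 1 4 7 8 (C 1 10 13 14 (C 1 20 23 24 (C 4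
  10 16 17 (C 4 20 26 27 (C 10 20 30 31 (C 2 5 7 9 (C 2 11 13 15 (C 2 21 23 25 (C 5 11 16 18 (C
  5 21 26 28 (C 11 21 30 32 (C 7 13 16 19 (C 7 23 26 29 (C 13 23 30 33 (C 16 26 30 34 (C 3 6 8 9
  (C 3 12 14 15 (C 3 22 24 25 (C 6 12 17 18 (C 6 22 27 28 (C 12 22 31 32 (C 8 14 17 19 (C 8 24
  27 29 (C 14 24 31 33 (C 17 27 31 34 (C 9 15 18 19 (C 9 25 28 29 (C 15 25 32 33 (C 18 28 32 34
  (C 19 29 33 34 E))))))))))))))))))))))))))))))))))

/-- One bit. -/
noncomputable def bK (m t : Nat) : Nat := Nat.land (Nat.shiftRight m t) 1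

/-- No 4-set has three triples. -/
noncomputable def okQ (l : QL) (m : Nat) : Bool :=
  QL.rec (motive := fun _ => Bool) true
    (fun a b c d _ ih => Bool.rec (motive := fun _ => Bool) false ih
      (Nat.ble (Nat.add (bK m a) (Nat.add (bK m b) (Nat.add (bK m c) (bK m d)))) 2)) l

/-- The check for a list of masks. -/
noncomputable def allA (l : List Nat) : Bool :=
  List.rec (motive := fun _ => Bool) true
    (fun m _ ih => Bool.rec (motive := fun _ => Bool) false
      (Bool.rec (motive := fun _ => Bool) false ih (Nat.ble m 34359738367)) (okQ q35 m)) l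

theorem rec2 {x y : Bool} (h : Bool.rec (motive := fun _ => Bool) false x y = true) :
    y = true ∧ x = true := by
  cases y
  · exact absurd h (by simp)
  · exact ⟨rfl, h⟩

theorem bK_eq (m t : Nat) : bK m t = (m.testBit t).toNat := by
  change (m >>> t) &&& 1 = _
  rw [Nat.and_one_is_mod, Nat.shiftRight_eq_div_pow, Nat.toNat_testBit]

theorem okQ_spec {m : Nat} : ∀ (l : QL), okQ l m = true → ∀ q ∈ l.toL,
    (q.map fun t => (m.testBit t).toNat).sum ≤ 2
  | .E, _, q, hq => absurd hq List.not_mem_nil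
  | .C a b c d l, h, q, hq => by
    obtain ⟨h1, h2⟩ := rec2 (x := okQ l m) h
    rcases List.mem_cons.1 hq with rfl | hq
    · have := Nat.le_of_ble_eq_true h1
      simp only [bK_eq, Nat.add_eq] at this
      simpa using this
    · exact okQ_spec l h2 q hq

/-- Positions of three distinct members of one 4-set. -/
def in3 (x y z : Nat) (q : List Nat) : Bool :=
  q.contains x && (q.contains y && (q.contains z))

theorem cover : ∀ a b c d : Fin 7, ixs a.1 b.1 c.1 = 35 ∨ ixs a.1 b.1 d.1 = 35 ∨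
    ixs a.1 c.1 d.1 = 35 ∨ ixs a.1 b.1 c.1 = ixs a.1 b.1 d.1 ∨ ixs a.1 b.1 c.1 = ixs a.1 c.1 d.1 ∨
    ixs a.1 b.1 d.1 = ixs a.1 c.1 d.1 ∨
    (q35.toL.any (in3 (ixs a.1 b.1 c.1) (ixs a.1 b.1 d.1) (ixs a.1 c.1 d.1))) = true := by
  decide +kernel

theorem dup : ∀ a b c d : Fin 7, (ixs a.1 b.1 c.1 = ixs a.1 b.1 d.1 ∨
    ixs a.1 b.1 c.1 = ixs a.1 c.1 d.1 ∨ ixs a.1 b.1 d.1 = ixs a.1 c.1 d.1) →
    ixs a.1 b.1 c.1 = 35 ∨ ixs a.1 b.1 d.1 = 35 ∨ ixs a.1 c.1 d.1 = 35 := by
  decide +kernel

theorem len4 : ∀ q ∈ q35.toL, ∃ a b c d, q = [a, b, c, d] := by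
  generalize q35 = l
  induction l with
  | E => intro q hq; exact absurd hq List.not_mem_nil
  | C a b c d l ih =>
    intro q hq
    rcases List.mem_cons.1 hq with rfl | hq
    · exact ⟨a, b, c, d, rfl⟩
    · exact ih q hq

theorem adm_of {m : Nat} (h35 : Nat.ble m 34359738367 = true) (h : okQ q35 m = true) :
    Adm m := by
  have hlt : m < 2 ^ 35 := by
    have := Nat.le_of_ble_eq_true h35
    norm_num
    omega
  refine ⟨hlt, fun a b c d h1 h2 h3 => ?_⟩
  unfold bt at h1 h2 h3
  have h0 : m.testBit 35 = false := Nat.testBit_eq_false_of_lt hlt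
  have key : ∀ x y z : Nat, m.testBit x = true → m.testBit y = true → m.testBit z = true →
      x ≠ y → x ≠ z → y ≠ z → q35.toL.any (in3 x y z) = true → False := by
    intro x y z hx hy hz hxy hxz hyz hany
    obtain ⟨q, hq, h4⟩ := List.any_eq_true.1 hany
    have hs := okQ_spec q35 h q hq
    obtain ⟨p1, p2, p3, p4, rfl⟩ := len4 q hq
    simp only [in3, Bool.and_eq_true, List.contains_iff_mem, List.mem_cons, List.not_mem_nil,
      or_false] at h4
    obtain ⟨m1, m2, m3⟩ := h4
    simp only [List.map_cons, List.map_nil, List.sum_cons, List.sum_nil] at hs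
    rcases m1 with rfl | rfl | rfl | rfl <;> rcases m2 with rfl | rfl | rfl | rfl <;>
      first
        | exact absurd rfl hxy
        | (rcases m3 with rfl | rfl | rfl | rfl <;>
            first
              | exact absurd rfl hxz
              | exact absurd rfl hyz
              | (simp only [hx, hy, hz, Bool.toNat_true] at hs
                 omega))
  have hc := cover a b c d
  have hd := dup a b c d
  have n1 : ixs a.1 b.1 c.1 ≠ 35 := fun e => by rw [e, h0] at h1; exact absurd h1 (by simp)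
  have n2 : ixs a.1 b.1 d.1 ≠ 35 := fun e => by rw [e, h0] at h2; exact absurd h2 (by simp)
  have n3 : ixs a.1 c.1 d.1 ≠ 35 := fun e => by rw [e, h0] at h3; exact absurd h3 (by simp)
  have n4 : ixs a.1 b.1 c.1 ≠ ixs a.1 b.1 d.1 := fun e => by
    rcases hd (Or.inl e) with e | e | e
    · exact n1 e
    · exact n2 e
    · exact n3 e
  have n5 : ixs a.1 b.1 c.1 ≠ ixs a.1 c.1 d.1 := fun e => by
    rcases hd (Or.inr (Or.inl e)) with e | e | e
    · exact n1 e
    · exact n2 e
    · exact n3 e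
  have n6 : ixs a.1 b.1 d.1 ≠ ixs a.1 c.1 d.1 := fun e => by
    rcases hd (Or.inr (Or.inr e)) with e | e | e
    · exact n1 e
    · exact n2 e
    · exact n3 e
  have h7 : (q35.toL.any (in3 (ixs a.1 b.1 c.1) (ixs a.1 b.1 d.1) (ixs a.1 c.1 d.1))) = true := by
    rcases hc with e | e | e | e | e | e | e
    · exact absurd e n1
    · exact absurd e n2
    · exact absurd e n3
    · exact absurd e n4
    · exact absurd e n5
    · exact absurd e n6
    · exact e
  exact key _ _ _ h1 h2 h3 n4 n5 n6 h7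

theorem allA_spec : ∀ l : List Nat, allA l = true → ∀ m ∈ l, Adm m
  | [], _, m, hm => absurd hm List.not_mem_nil
  | a :: l, h, m, hm => by
    obtain ⟨h1, h2⟩ := rec2 (y := okQ q35 a) h
    obtain ⟨h3, h4⟩ := rec2 (y := Nat.ble a 34359738367) (x := allA l) h2
    rcases List.mem_cons.1 hm with rfl | hm
    · exact adm_of h3 h1
    · exact allA_spec l h4 m hm

end KE
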