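set_option autoImplicit false

/-!
Kernel functions for the enumeration of K4^- -free 3-graphs on seven vertices.
-/

namespace KE

/-- Binary trees with packed leaves. -/
inductive BT where
  | lf (n : Nat) : BT
  | nd (a b : BT) : BT

/-- Look-up: low bits of the path first, the rest of the path is the position in the leaf. -/
noncomputable def look (t : BT) : Nat → Nat :=
  BT.rec (motive := fun _ => Nat → Nat)
    (fun n p => Nat.land (Nat.shiftRight n (Nat.mul 35 (Nat.land p 15))) 34359738367)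
    (fun _ _ fa fb p => Bool.rec (motive := fun _ => Nat) (fb (Nat.shiftRight p 1))
      (fa (Nat.shiftRight p 1)) (Nat.beq (Nat.land p 1) 0)) t

/-- The masks of a leaf. -/
def unp (n : Nat) : Nat → List Nat
  | 0 => []
  | k + 1 => Nat.land (Nat.shiftRight n (Nat.mul 35 (15 - k))) 34359738367 :: unp n k

/-- The masks of a tree. -/
def flat : BT → List Nat
  | .lf n => unp n 16
  | .nd a b => flat a ++ flat b

/-- Swap of vertices 0, 1. -/
def g0 (m : Nat) : Nat :=
  Nat.lor (Nat.land m 30905501203) (Nat.lor (Nat.shiftLeft (Nat.land m 1151412388) 1)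
    (Nat.land (Nat.shiftRight m 1) 1151412388))

/-- Swap of vertices 1, 2. -/
def g1 (m : Nat) : Nat :=
  Nat.lor (Nat.land m 27460710601) (Nat.lor (Nat.shiftLeft (Nat.land m 2299675922) 1)
    (Nat.land (Nat.shiftRight m 1) 2299675922))

/-- Swap of vertices 2, 3. -/
def g2 (m : Nat) : Nat :=
  Nat.lor (Nat.land m 20637255196) (Nat.lor (Nat.lor (Nat.shiftLeft (Nat.land m 4563664897) 1)
    (Nat.land (Nat.shiftRight m 1) 4563664897)) (Nat.lor (Nat.shiftLeft (Nat.land m 6297696) 2)
    (Nat.land (Nat.shiftRight m 2) 6297696)))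

/-- Swap of vertices 3, 4. -/
def g3 (m : Nat) : Nat :=
  Nat.lor (Nat.land m 8060936065) (Nat.lor (Nat.lor (Nat.shiftLeft (Nat.land m 8589934592) 1)
    (Nat.land (Nat.shiftRight m 1) 8589934592)) (Nat.lor (Nat.shiftLeft (Nat.land m 58777614) 3)
    (Nat.land (Nat.shiftRight m 3) 58777614)))

/-- Swap of vertices 4, 5. -/
def g4 (m : Nat) : Nat :=
  Nat.lor (Nat.land m 17246912527) (Nat.lor (Nat.lor (Nat.shiftLeft (Nat.land m 1006632960) 4)
    (Nat.land (Nat.shiftRight m 4) 1006632960)) (Nat.lor (Nat.shiftLeft (Nat.land m 1008) 6)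
    (Nat.land (Nat.shiftRight m 6) 1008)))

/-- Swap of vertices 5, 6. -/
def g5 (m : Nat) : Nat :=
  Nat.lor (Nat.land m 33285997567) (Nat.lor (Nat.shiftLeft (Nat.land m 1047552) 10)
    (Nat.land (Nat.shiftRight m 10) 1047552))

/-- Swap with number `k`. -/
noncomputable def gk (k m : Nat) : Nat :=
  Nat.rec (motive := fun _ => Nat) (g0 m) (fun k _ =>
  Nat.rec (motive := fun _ => Nat) (g1 m) (fun k _ =>
  Nat.rec (motive := fun _ => Nat) (g2 m) (fun k _ =>
  Nat.rec (motive := fun _ => Nat) (g3 m) (fun k _ =>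
  Nat.rec (motive := fun _ => Nat) (g4 m) (fun _ _ => g5 m) k) k) k) k) k

/-- Apply a word: digits base 8, letter + 1, end at digit 0 or at a letter not below `n`. -/
noncomputable def ap (n f : Nat) : Nat → Nat → Nat :=
  Nat.rec (motive := fun _ => Nat → Nat → Nat) (fun _ m => m)
    (fun _ ih w m => Nat.rec (motive := fun _ => Nat) m
      (fun k _ => Bool.rec (motive := fun _ => Nat) (ih (Nat.shiftRight w 3) (gk k m)) m
        (Nat.ble n k)) (Nat.land w 7)) f

/-- One entry: `L + 2^15 * (path + 2^17 * word)`. -/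
noncomputable def ent (n c : Nat) (T : BT) (H e acc : Nat) : Nat :=
  Bool.rec (motive := fun _ => Nat) acc (Nat.lor acc (Nat.shiftLeft 1 (Nat.land e 32767)))
    (Nat.beq (ap n 21 (Nat.shiftRight e 32) (Nat.add H (Nat.shiftLeft (Nat.land e 32767) c)))
      (look T (Nat.land (Nat.shiftRight e 15) 131071)))

/-- All entries of a list that pass the check. -/
noncomputable def run (n c : Nat) (T : BT) (H : Nat) (l : List Nat) : Nat :=
  List.rec (motive := fun _ => Nat) 0 (fun e _ ih => ent n c T H e ih) l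

/-- Doubling, for the set of all `L` with bit `p`. -/
noncomputable def mp (p j : Nat) : Nat :=
  Nat.rec (motive := fun _ => Nat) (Nat.shiftLeft (Nat.sub (Nat.pow 2 (Nat.pow 2 p)) 1)
    (Nat.pow 2 p)) (fun j ih => Nat.lor ih (Nat.shiftLeft ih (Nat.pow 2 (Nat.add (Nat.succ p) j))))
    j

/-- The set of all `L < 2^15` with bit `p`. -/
noncomputable def M (p : Nat) : Nat := mp p (Nat.sub 14 p)

/-- The set of all `L < s`. -/
def full (s : Nat) : Nat := Nat.sub (Nat.pow 2 s) 1

/-- The set of all `L < 2^15`. -/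
def F : Nat := full 32768

/-- The set of all `L < 2^15` without bit `p`. -/
noncomputable def N (p : Nat) : Nat := Nat.xor F (M p)

/-- Links violating the condition at a triple. -/
noncomputable def bad (H t a b c : Nat) : Nat :=
  Bool.rec (motive := fun _ => Nat) (Nat.land (M a) (Nat.land (M b) (M c)))
    (Nat.lor (Nat.land (M a) (M b)) (Nat.land (M c) (Nat.lor (M a) (M b))))
    (Nat.beq (Nat.land (Nat.shiftRight H t) 1) 1)

/-- A quadruple through the last vertex: a triple and its three pairs. -/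
inductive Q4 where
  | mk (t a b c : Nat) : Q4

/-- The allowed links, by the conditions of a list of triples; `s` is the number of pairs. -/
noncomputable def lk (s H : Nat) (l : List Q4) : Nat :=
  List.rec (motive := fun _ => Nat) (full (Nat.pow 2 s))
    (fun q _ ih => Q4.rec (motive := fun _ => Nat)
      (fun t a b c => Nat.land ih (Nat.xor F (bad H t a b c))) q) l

/-- All `L < 2^15` with at most `d` bits in a list. -/
noncomputable def thr (l : List Nat) : Nat → Nat :=
  List.rec (motive := fun _ => Nat → Nat) (fun _ => F)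
    (fun p _ ih d => Nat.rec (motive := fun _ => Nat) (Nat.land (ih 0) (N p))
      (fun d _ => Nat.lor (ih d) (Nat.land (N p) (ih (Nat.succ d)))) d) l

/-- Number of bits of `H` in a list. -/
noncomputable def bits (H : Nat) (l : List Nat) : Nat :=
  List.rec (motive := fun _ => Nat) 0
    (fun t _ ih => Nat.add (Nat.land (Nat.shiftRight H t) 1) ih) l

/-- The triples of `0, ..., 5` with their pairs. -/
def q4 : List Q4 :=
  [.mk 0 0 1 2, .mk 1 0 3 4, .mk 2 1 3 5, .mk 3 2 4 5, .mk 4 0 6 7, .mk 5 1 6 8, .mk 6 2 7 8,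
   .mk 7 3 6 9, .mk 8 4 7 9, .mk 9 5 8 9, .mk 10 0 10 11, .mk 11 1 10 12, .mk 12 2 11 12,
   .mk 13 3 10 13, .mk 14 4 11 13, .mk 15 5 12 13, .mk 16 6 10 14, .mk 17 7 11 14,
   .mk 18 8 12 14, .mk 19 9 13 14]

/-- For a vertex `u < 6`: the triples of `0, ..., 5` with `u`, and the pairs without `u`. -/
inductive DU where
  | mk (t p : List Nat) : DU

/-- The six vertices. -/
def du : List DU :=
  [.mk [0, 1, 2, 4, 5, 7, 10, 11, 13, 16] [2, 4, 5, 7, 8, 9, 11, 12, 13, 14],
   .mk [0, 1, 3, 4, 6, 8, 10, 12, 14, 17] [1, 3, 5, 6, 8, 9, 10, 12, 13, 14],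
   .mk [0, 2, 3, 5, 6, 9, 11, 12, 15, 18] [0, 3, 4, 6, 7, 9, 10, 11, 13, 14],
   .mk [1, 2, 3, 7, 8, 9, 13, 14, 15, 19] [0, 1, 2, 6, 7, 8, 10, 11, 12, 14],
   .mk [4, 5, 6, 7, 8, 9, 16, 17, 18, 19] [0, 1, 2, 3, 4, 5, 10, 11, 12, 13],
   .mk [10, 11, 12, 13, 14, 15, 16, 17, 18, 19] [0, 1, 2, 3, 4, 5, 6, 7, 8, 9]]

/-- Links satisfying the degree conditions. -/
noncomputable def dg (H : Nat) (l : List DU) : Nat :=
  List.rec (motive := fun _ => Nat) F
    (fun q _ ih => DU.rec (motive := fun _ => Nat)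
      (fun t p => Nat.land ih (thr p (bits H t))) q) l

/-- The check for a graph `H` on the first `n < 6` vertices. -/
noncomputable def chk (n c s : Nat) (T : BT) (l : List Q4) (H : Nat) (es : List Nat) : Bool :=
  Nat.beq (Nat.land (lk s H l) (run n c T H es)) (lk s H l)

/-- The check for a graph `H` on the first six vertices. -/
noncomputable def chk6 (T : BT) (H : Nat) (es : List Nat) : Bool :=
  Nat.beq (Nat.land (Nat.land (lk 15 H q4) (dg H du)) (run 6 20 T H es))
    (Nat.land (lk 15 H q4) (dg H du))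

end KE
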