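import Pool.Agent.Helper13.KC.Core
import Pool.Agent.Helper41.KE.Defs

set_option autoImplicit false

/-!
Soundness of the kernel functions of the enumeration.
-/

namespace KE

open KC

/-! Look-up. -/

theorem mem_unp (n : Nat) : ∀ k p : Nat, k ≤ 16 → 16 - k ≤ p → p < 16 →
    Nat.land (Nat.shiftRight n (Nat.mul 35 p)) 34359738367 ∈ unp n k
  | 0, p, _, h1, h2 => by omega
  | k + 1, p, hk, h1, h2 => by
    unfold unp
    by_cases h : p = 15 - k
    · subst h; exact List.mem_cons_self
    · exact List.mem_cons_of_mem _ (mem_unp n k p (by omega) (by omega) h2)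

theorem look_mem : ∀ (t : BT) (p : Nat), look t p ∈ flat t
  | .lf n, p => by
    have h : Nat.land p 15 < 16 := by
      have : p &&& 15 ≤ 15 := Nat.and_le_right
      exact Nat.lt_succ_of_le this
    exact mem_unp n 16 (Nat.land p 15) (by omega) (by omega) h
  | .nd a b, p => by
    unfold flat
    have h1 := look_mem a (Nat.shiftRight p 1)
    have h2 := look_mem b (Nat.shiftRight p 1)
    rcases h : Nat.beq (Nat.land p 1) 0 with _ | _
    · have : look (.nd a b) p = look b (Nat.shiftRight p 1) := by
        change Bool.rec (motive := fun _ => Nat) _ _ (Nat.beq (Nat.land p 1) 0) = _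
        rw [h]; rfl
      rw [this]; exact List.mem_append_right _ h2
    · have : look (.nd a b) p = look a (Nat.shiftRight p 1) := by
        change Bool.rec (motive := fun _ => Nat) _ _ (Nat.beq (Nat.land p 1) 0) = _
        rw [h]; rfl
      rw [this]; exact List.mem_append_left _ h1

/-! Words. -/

/-- All letters are below `n`. -/
def wokn (n : Nat) (l : List Nat) : Bool := l.all (fun i => Nat.blt i n)

theorem wokn_cons {n i : Nat} {l : List Nat} :
    wokn n (i :: l) = true ↔ i < n ∧ wokn n l = true := by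
  simp [wokn, Nat.blt_eq]

theorem wokn_wok {n : Nat} (hn : n ≤ 6) : ∀ {l : List Nat}, wokn n l = true → wok l = true
  | [], _ => rfl
  | i :: l, h => by
    obtain ⟨h1, h2⟩ := wokn_cons.1 h
    exact wok_cons.2 ⟨by omega, wokn_wok hn h2⟩

theorem wokn_mono {n k : Nat} (hn : n ≤ k) : ∀ {l : List Nat}, wokn n l = true →
    wokn k l = true
  | [], _ => rfl
  | i :: l, h => by
    obtain ⟨h1, h2⟩ := wokn_cons.1 h
    exact wokn_cons.2 ⟨by omega, wokn_mono hn h2⟩

theorem gk_eq (k m : Nat) (hk : k < 6) : gk k m = tau k m := by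
  have : k = 0 ∨ k = 1 ∨ k = 2 ∨ k = 3 ∨ k = 4 ∨ k = 5 := by omega
  rcases this with rfl | rfl | rfl | rfl | rfl | rfl <;> rfl

theorem ap_eq (n : Nat) (hn : n ≤ 6) : ∀ f w m : Nat,
    ∃ l, wokn n l = true ∧ ap n f w m = awl l m
  | 0, w, m => ⟨[], rfl, rfl⟩
  | f + 1, w, m => by
    rcases h : Nat.land w 7 with _ | k
    · refine ⟨[], rfl, ?_⟩
      change Nat.rec (motive := fun _ => Nat) m _ (Nat.land w 7) = _
      rw [h]; rfl
    · rcases hb : Nat.ble n k with _ | _
      · have hk : k < n := by
          by_contra hc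
          have := Nat.ble_eq_true_of_le (Nat.le_of_not_lt hc)
          rw [hb] at this; exact absurd this (by decide)
        obtain ⟨l, h1, h2⟩ := ap_eq n hn f (Nat.shiftRight w 3) (tau k m)
        refine ⟨k :: l, wokn_cons.2 ⟨hk, h1⟩, ?_⟩
        rw [awl, ← h2, ← gk_eq k m (by omega)]
        change Nat.rec (motive := fun _ => Nat) m _ (Nat.land w 7) = _
        rw [h]
        change Bool.rec (motive := fun _ => Nat) _ _ (Nat.ble n k) = _
        rw [hb]; rfl
      · refine ⟨[], rfl, ?_⟩
        change Nat.rec (motive := fun _ => Nat) m _ (Nat.land w 7) = _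
        rw [h]
        change Bool.rec (motive := fun _ => Nat) _ _ (Nat.ble n k) = _
        rw [hb]; rfl

/-! Entries. -/

theorem one_shift_testBit (a L : Nat) :
    (Nat.shiftLeft 1 a).testBit L = decide (L = a) := by
  change (1 <<< a).testBit L = _
  rw [Nat.testBit_shiftLeft]
  by_cases h : L = a
  · subst h; simp
  · by_cases h2 : a ≤ L
    · have : (1 : Nat).testBit (L - a) = false :=
        Nat.testBit_eq_false_of_lt (Nat.one_lt_two_pow (by omega))
      simp [h, this]
    · simp [h, h2]

theorem run_sound (n c : Nat) (hn : n ≤ 6) (T : BT) (H : Nat) : ∀ (es : List Nat) (L : Nat),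
    (run n c T H es).testBit L = true →
      ∃ l, wokn n l = true ∧ awl l (H + L <<< c) ∈ flat T
  | [], L, h => by
    have : (0 : Nat).testBit L = true := h
    simp at this
  | e :: es, L, h => by
    have ih := run_sound n c hn T H es L
    have h1 : (ent n c T H e (run n c T H es)).testBit L = true := h
    unfold ent at h1
    rcases hb : Nat.beq (ap n 21 (Nat.shiftRight e 32)
      (Nat.add H (Nat.shiftLeft (Nat.land e 32767) c)))
      (look T (Nat.land (Nat.shiftRight e 15) 131071)) with _ | _
    · rw [hb] at h1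
      exact ih h1
    · rw [hb] at h1
      change (Nat.lor (run n c T H es) (Nat.shiftLeft 1 (Nat.land e 32767))).testBit L = true
        at h1
      rw [lor_bit, Bool.or_eq_true] at h1
      rcases h1 with h1 | h1
      · exact ih h1
      · rw [one_shift_testBit] at h1
        have hL : L = Nat.land e 32767 := of_decide_eq_true h1
        obtain ⟨l, hl1, hl2⟩ := ap_eq n hn 21 (Nat.shiftRight e 32)
          (Nat.add H (Nat.shiftLeft (Nat.land e 32767) c))
        refine ⟨l, hl1, ?_⟩
        have h2 := Nat.eq_of_beq_eq_true hb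
        have h3 : awl l (H + L <<< c) = look T (Nat.land (Nat.shiftRight e 15) 131071) := by
          rw [← h2, hl2, hL]; rfl
        rw [h3]
        exact look_mem T _

/-! The sets of links. -/

theorem full_bit (s L : Nat) (h : L < s) : (full s).testBit L = true := by
  change (2 ^ s - 1).testBit L = true
  rw [Nat.testBit_two_pow_sub_one]; exact decide_eq_true h

theorem mp_spec (p : Nat) : ∀ j : Nat, mp p j < 2 ^ (2 ^ (p + 1 + j)) ∧
    ∀ L < 2 ^ (p + 1 + j), (mp p j).testBit L = L.testBit p
  | 0 => by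
    have e : mp p 0 = (2 ^ (2 ^ p) - 1) <<< (2 ^ p) := rfl
    refine ⟨?_, fun L hL => ?_⟩
    · rw [e, Nat.shiftLeft_eq, Nat.add_zero, pow_succ, Nat.mul_comm (2 ^ p) 2, two_mul, pow_add]
      exact Nat.mul_lt_mul_of_pos_right (Nat.sub_lt (by positivity) (by norm_num))
        (by positivity)
    · rw [e, Nat.testBit_shiftLeft, Nat.testBit_two_pow_sub_one]
      rw [Nat.add_zero, pow_succ] at hL
      by_cases h : 2 ^ p ≤ L
      · have h1 : L.testBit p = true := by
          have : L = 2 ^ p + (L - 2 ^ p) := by omega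
          rw [this, Nat.testBit_two_pow_add_eq,
            Nat.testBit_eq_false_of_lt (by omega)]
          rfl
        rw [h1, decide_eq_true h, decide_eq_true (by omega)]
        rfl
      · rw [Nat.testBit_eq_false_of_lt (by omega), decide_eq_false (by omega)]
        rfl
  | j + 1 => by
    obtain ⟨h1, h2⟩ := mp_spec p j
    have e : mp p (j + 1) = mp p j ||| (mp p j) <<< (2 ^ (p + 1 + j)) := rfl
    have e2 : 2 ^ (p + 1 + (j + 1)) = 2 ^ (p + 1 + j) + 2 ^ (p + 1 + j) := by ring
    refine ⟨?_, fun L hL => ?_⟩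
    · rw [e]
      have h3 : mp p j * 2 ^ 2 ^ (p + 1 + j) < 2 ^ 2 ^ (p + 1 + j) * 2 ^ 2 ^ (p + 1 + j) :=
        Nat.mul_lt_mul_of_pos_right h1 (Nat.two_pow_pos _)
      refine Nat.or_lt_two_pow (lt_of_lt_of_le h1 (Nat.pow_le_pow_right (by norm_num)
        (Nat.pow_le_pow_right (by norm_num) (by omega)))) ?_
      rw [Nat.shiftLeft_eq, e2, pow_add (2 : Nat) (2 ^ (p + 1 + j)) (2 ^ (p + 1 + j))]
      exact h3
    · rw [e, Nat.testBit_or, Nat.testBit_shiftLeft]
      by_cases h : 2 ^ (p + 1 + j) ≤ L
      · rw [Nat.testBit_eq_false_of_lt (lt_of_lt_of_le h1 (Nat.pow_le_pow_right (by norm_num) h)),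
          decide_eq_true h, Bool.false_or, Bool.true_and, h2 _ (by omega)]
        obtain ⟨K, rfl⟩ := Nat.exists_eq_add_of_le h
        rw [Nat.add_sub_cancel_left, Nat.testBit_two_pow_add_gt (by omega)]
      · rw [decide_eq_false h, Bool.false_and, Bool.or_false, h2 _ (by omega)]

theorem M_bit (p L : Nat) (hp : p < 15) (hL : L < 32768) : (M p).testBit L = L.testBit p := by
  have h := (mp_spec p (14 - p)).2 L (by
    have : p + 1 + (14 - p) = 15 := by omega
    rw [this]; exact hL)
  exact h

theorem F_bit (L : Nat) (hL : L < 32768) : F.testBit L = true := by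
  have h : F = full 32768 := rfl
  rw [h]
  exact full_bit 32768 L hL

theorem xor_bit (a b t : Nat) : (Nat.xor a b).testBit t = (a.testBit t ^^ b.testBit t) :=
  Nat.testBit_xor ..

theorem N_bit (p L : Nat) (hp : p < 15) (hL : L < 32768) : (N p).testBit L = !L.testBit p := by
  unfold N
  rw [xor_bit, F_bit L hL, M_bit p L hp hL, Bool.true_xor]

end KE
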