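import Pool.Agent.Helper41.KE.Sound

set_option autoImplicit false

/-!
Soundness of the kernel functions of the enumeration: allowed links.
-/

namespace KE

open KC

theorem one_bit (H t : Nat) : Nat.land (Nat.shiftRight H t) 1 = (H.testBit t).toNat := by
  change (H >>> t) &&& 1 = _
  rw [Nat.and_one_is_mod, Nat.shiftRight_eq_div_pow, Nat.toNat_testBit]

theorem beq_bit (H t : Nat) : Nat.beq (Nat.land (Nat.shiftRight H t) 1) 1 = H.testBit t := by
  rw [one_bit]
  cases H.testBit t <;> rfl

theorem bad_bit (H t a b c L : Nat) (ha : a < 15) (hb : b < 15) (hc : c < 15)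
    (hL : L < 32768) : (bad H t a b c).testBit L =
      (if H.testBit t = true then (L.testBit a && L.testBit b) ||
        (L.testBit c && (L.testBit a || L.testBit b))
      else L.testBit a && (L.testBit b && L.testBit c)) := by
  have h1 := M_bit a L ha hL
  have h2 := M_bit b L hb hL
  have h3 := M_bit c L hc hL
  unfold bad
  rw [beq_bit]
  cases H.testBit t
  · change (Nat.land (M a) (Nat.land (M b) (M c))).testBit L = _
    rw [land_bit, land_bit, h1, h2, h3]; rfl
  · change (Nat.lor (Nat.land (M a) (M b)) (Nat.land (M c) (Nat.lor (M a) (M b)))).testBit L = _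
    rw [lor_bit, land_bit, land_bit, lor_bit, h1, h2, h3]; rfl

/-- The condition of a quadruple. -/
def good (H L : Nat) : Q4 → Prop
  | .mk t a b c => (bad H t a b c).testBit L = false

theorem lk_bit (s H L : Nat) (hL : L < 32768) (hs : L < 2 ^ s) : ∀ l : List Q4,
    (∀ q ∈ l, good H L q) → (lk s H l).testBit L = true
  | [], _ => full_bit _ _ hs
  | .mk t a b c :: l, h => by
    have ih := lk_bit s H L hL hs l (fun q hq => h q (List.mem_cons_of_mem _ hq))
    have h1 : (bad H t a b c).testBit L = false := h _ List.mem_cons_self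
    change (Nat.land (lk s H l) (Nat.xor F (bad H t a b c))).testBit L = true
    rw [land_bit, ih, xor_bit, F_bit L hL, h1]; rfl

/-- Check of the data of a quadruple. -/
def okq (n c s : Nat) : Q4 → Bool
  | .mk t a b d =>
    let x := (f7 (tri t).1).1
    let y := (f7 (tri t).2.1).1
    let z := (f7 (tri t).2.2).1
    decide (t < c) && decide (a < s) && decide (b < s) && decide (d < s) &&
    (ixs x y z == t && ixs x y n == c + a && ixs x z n == c + b) &&
    (ixs y x z == t && ixs y x n == c + a && ixs y z n == c + d) &&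
    (ixs z x y == t && ixs z x n == c + b && ixs z y n == c + d) &&
    (ixs n x y == c + a && ixs n x z == c + b && ixs n y z == c + d)

/-- The parameters of a step. -/
inductive St : Nat → Nat → Nat → Prop where
  | s3 : St 3 1 3
  | s4 : St 4 4 6
  | s5 : St 5 10 10
  | s6 : St 6 20 15

theorem okq_all {n c s : Nat} (h : St n c s) : ∀ q ∈ q4.take c, okq n c s q = true := by
  cases h <;> decide +kernel

theorem St.lt {n c s : Nat} (h : St n c s) : 3 ≤ n ∧ n ≤ 6 ∧ s ≤ 15 ∧ c + s ≤ 35 := by
  cases h <;> omega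

theorem good_of_adm {n c s : Nat} (hst : St n c s) {m : Nat} (hm : Adm m) (q : Q4)
    (hq : q ∈ q4.take c) : good (m % 2 ^ c) (m / 2 ^ c % 2 ^ s) q := by
  obtain ⟨t, a, b, d⟩ := q
  have hk := okq_all hst _ hq
  obtain ⟨hn3, hn6, hs, hcs⟩ := hst.lt
  have hn7 : (⟨n, by omega⟩ : Fin 7).1 = n := rfl
  generalize hN : (⟨n, by omega⟩ : Fin 7) = N' at hn7
  simp only [okq, Bool.and_eq_true, decide_eq_true_eq, beq_iff_eq] at hk
  obtain ⟨⟨⟨⟨⟨⟨⟨ht, ha⟩, hb⟩, hd⟩, ⟨e1, e2⟩, e3⟩, ⟨e4, e5⟩, e6⟩, ⟨e7, e8⟩, e9⟩, ⟨e10, e11⟩,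
    e12⟩ := hk
  generalize f7 (tri t).1 = x at *
  generalize f7 (tri t).2.1 = y at *
  generalize f7 (tri t).2.2 = z at *
  have hL : m / 2 ^ c % 2 ^ s < 32768 := by
    have : m / 2 ^ c % 2 ^ s < 2 ^ s := Nat.mod_lt _ (Nat.two_pow_pos _)
    have h2 : 2 ^ s ≤ 2 ^ 15 := Nat.pow_le_pow_right (by norm_num) hs
    exact lt_of_lt_of_le this h2
  have bH : (m % 2 ^ c).testBit t = m.testBit t := by
    rw [Nat.testBit_mod_two_pow, decide_eq_true ht, Bool.true_and]
  have bL : ∀ i, i < s → (m / 2 ^ c % 2 ^ s).testBit i = m.testBit (c + i) := by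
    intro i hi
    rw [Nat.testBit_mod_two_pow, decide_eq_true hi, Bool.true_and, Nat.testBit_div_two_pow,
      Nat.add_comm]
  change (bad (m % 2 ^ c) t a b d).testBit (m / 2 ^ c % 2 ^ s) = false
  rw [bad_bit _ _ _ _ _ _ (lt_of_lt_of_le ha hs) (lt_of_lt_of_le hb hs)
    (lt_of_lt_of_le hd hs) hL, bH, bL a ha, bL b hb, bL d hd]
  have f1 := hm.free x y z N'
  have f2 := hm.free y x z N'
  have f3 := hm.free z x y N'
  have f4 := hm.free N' x y z
  unfold bt at f1 f2 f3 f4
  rw [hn7] at f1 f2 f3 f4
  rw [e1, e2, e3] at f1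
  rw [e4, e5, e6] at f2
  rw [e7, e8, e9] at f3
  rw [e10, e11, e12] at f4
  revert f1 f2 f3 f4
  cases m.testBit t <;> cases m.testBit (c + a) <;> cases m.testBit (c + b) <;>
    cases m.testBit (c + d) <;> simp

/-! Degrees. -/

theorem thr_bit (L : Nat) (hL : L < 32768) : ∀ (l : List Nat) (d : Nat), (∀ p ∈ l, p < 15) →
    l.countP (fun p => L.testBit p) ≤ d → (thr l d).testBit L = true
  | [], _, _, _ => F_bit L hL
  | p :: l, 0, hp, h => by
    rw [List.countP_cons] at h
    have h1 : L.testBit p = false := by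
      cases hb : L.testBit p
      · rfl
      · rw [hb] at h; simp at h
    have h2 : l.countP (fun p => L.testBit p) ≤ 0 := by omega
    have ih := thr_bit L hL l 0 (fun q hq => hp q (List.mem_cons_of_mem _ hq)) h2
    change (Nat.land (thr l 0) (N p)).testBit L = true
    rw [land_bit, ih, N_bit p L (hp p List.mem_cons_self) hL, h1]; rfl
  | p :: l, d + 1, hp, h => by
    rw [List.countP_cons] at h
    change (Nat.lor (thr l d) (Nat.land (N p) (thr l (d + 1)))).testBit L = true
    rw [lor_bit, land_bit, N_bit p L (hp p List.mem_cons_self) hL]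
    cases hb : L.testBit p
    · have h2 : l.countP (fun p => L.testBit p) ≤ d + 1 := by
        rw [hb] at h; simpa using h
      rw [thr_bit L hL l (d + 1) (fun q hq => hp q (List.mem_cons_of_mem _ hq)) h2]
      simp
    · have h2 : l.countP (fun p => L.testBit p) ≤ d := by
        rw [hb] at h; simpa using h
      rw [thr_bit L hL l d (fun q hq => hp q (List.mem_cons_of_mem _ hq)) h2]
      simp

theorem bits_eq (H : Nat) : ∀ l : List Nat, bits H l = l.countP (fun t => H.testBit t)
  | [] => rfl
  | t :: l => by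
    change Nat.add (Nat.land (Nat.shiftRight H t) 1) (bits H l) = _
    rw [one_bit, bits_eq H l, List.countP_cons]
    cases H.testBit t
    · change 0 + _ = _; simp
    · change 1 + _ = _; simp [Nat.add_comm]

/-- The condition of a degree entry. -/
def goodD (H L : Nat) : DU → Prop
  | .mk t p => (∀ x ∈ p, x < 15) ∧
      p.countP (fun x => L.testBit x) ≤ t.countP (fun x => H.testBit x)

theorem dg_bit (H L : Nat) (hL : L < 32768) : ∀ l : List DU, (∀ q ∈ l, goodD H L q) →
    (dg H l).testBit L = true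
  | [], _ => F_bit L hL
  | .mk t p :: l, h => by
    have ih := dg_bit H L hL l (fun q hq => h q (List.mem_cons_of_mem _ hq))
    obtain ⟨h1, h2⟩ : goodD H L (.mk t p) := h _ List.mem_cons_self
    change (Nat.land (dg H l) (thr p (bits H t))).testBit L = true
    rw [land_bit, ih, bits_eq, thr_bit L hL p _ h1 h2]; rfl

/-- The triples with a vertex. -/
def TL (v : Nat) : List Nat :=
  (List.range 35).filter (fun t => (tri t).1 == v || (tri t).2.1 == v || (tri t).2.2 == v)

/-- The degree. -/
def dgl (m v : Nat) : Nat := (TL v).countP (fun t => m.testBit t)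

theorem TL_lt : ∀ v < 7, ∀ t ∈ TL v, t < 35 := by
  intro v _ t ht
  exact List.mem_range.1 (List.mem_filter.1 ht).1

theorem TL_perm : ∀ i < 6, ∀ v < 7, ((TL v).map (ba i)).Perm (TL (sw i v)) := by
  decide +kernel

theorem dgl_tau (i m v : Nat) (hi : i < 6) (hv : v < 7) : dgl (tau i m) v = dgl m (sw i v) := by
  unfold dgl
  rw [← (TL_perm i hi v hv).countP_eq, List.countP_map]
  refine List.countP_congr fun t ht => ?_
  rw [tau_bit i m t hi (TL_lt v hv t ht)]
  rfl

/-- The vertex map of a word. -/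
def vs (l : List Nat) (v : Nat) : Nat := l.foldr sw v

theorem sw_lt {i v : Nat} (hi : i < 6) (hv : v < 7) : sw i v < 7 := by
  unfold sw
  split
  · omega
  · split <;> omega

theorem vs_lt : ∀ (l : List Nat) {v : Nat}, wok l = true → v < 7 → vs l v < 7
  | [], _, _, hv => hv
  | _ :: l, _, hl, hv => sw_lt (wok_cons.1 hl).1 (vs_lt l (wok_cons.1 hl).2 hv)

theorem dgl_awl : ∀ (l : List Nat) (m v : Nat), wok l = true → v < 7 →
    dgl (awl l m) v = dgl m (vs l v)
  | [], _, _, _, _ => rfl
  | i :: l, m, v, hl, hv => by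
    rw [awl, dgl_awl l (tau i m) v (wok_cons.1 hl).2 hv,
      dgl_tau i m _ (wok_cons.1 hl).1 (vs_lt l (wok_cons.1 hl).2 hv)]
    rfl

theorem vs_six : ∀ (l : List Nat) {n : Nat}, n < 6 → wokn n l = true → vs l 6 = 6
  | [], _, _, _ => rfl
  | i :: l, n, hn, hl => by
    obtain ⟨h1, h2⟩ := wokn_cons.1 hl
    change sw i (vs l 6) = 6
    rw [vs_six l hn h2]
    unfold sw
    rw [if_neg (by omega), if_neg (by omega)]

/-- The last vertex has minimum degree. -/
def MD (m : Nat) : Prop := ∀ u < 6, dgl m 6 ≤ dgl m u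

theorem MD_awl {m : Nat} (h : MD m) {l : List Nat} {n : Nat} (hn : n < 6)
    (hl : wokn n l = true) : MD (awl l m) := by
  intro u hu
  have hw := wokn_wok (by omega) hl
  rw [dgl_awl l m 6 hw (by omega), dgl_awl l m u hw (by omega), vs_six l hn hl]
  have h1 := vs_lt l hw (show u < 7 by omega)
  rcases Nat.lt_or_ge (vs l u) 6 with h2 | h2
  · exact h _ h2
  · have : vs l u = 6 := by omega
    rw [this]

theorem exists_MD (m : Nat) : ∃ l, wok l = true ∧ MD (awl l m) := by
  obtain ⟨v, hv, h⟩ := Finset.exists_min_image (Finset.range 7) (fun v => dgl m v) ⟨0, by simp⟩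
  rw [Finset.mem_range] at hv
  have key : ∀ v < 7, ∃ l ∈ [[], [0, 1, 2, 3, 4, 5], [1, 2, 3, 4, 5], [2, 3, 4, 5], [3, 4, 5],
      [4, 5], [5]], wok l = true ∧ vs l 6 = v := by decide +kernel
  obtain ⟨l, _, hl, hl6⟩ := key v hv
  refine ⟨l, hl, fun u hu => ?_⟩
  rw [dgl_awl l m 6 hl (by omega), dgl_awl l m u hl (by omega), hl6]
  exact h _ (Finset.mem_range.2 (vs_lt l hl (by omega)))

/-- Check of the data of the degree entries. -/
def okd (u : Nat) : DU → Prop
  | .mk t p => (∀ x ∈ p, x < 15) ∧ (∀ x ∈ t, x < 20) ∧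
    (TL u).Perm (t ++ ((List.range 15).filter (fun x => !p.contains x)).map (20 + ·)) ∧
    (List.range 15).Perm (p ++ (List.range 15).filter (fun x => !p.contains x))

theorem okd_all : ∀ q ∈ du, ∃ u < 6, okd u q := by
  intro q hq
  unfold du at hq
  simp only [List.mem_cons, List.not_mem_nil, or_false] at hq
  rcases hq with rfl | rfl | rfl | rfl | rfl | rfl
  · exact ⟨0, by omega, by decide +kernel, by decide +kernel, by decide +kernel,
      by decide +kernel⟩
  · exact ⟨1, by omega, by decide +kernel, by decide +kernel, by decide +kernel,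
      by decide +kernel⟩
  · exact ⟨2, by omega, by decide +kernel, by decide +kernel, by decide +kernel,
      by decide +kernel⟩
  · exact ⟨3, by omega, by decide +kernel, by decide +kernel, by decide +kernel,
      by decide +kernel⟩
  · exact ⟨4, by omega, by decide +kernel, by decide +kernel, by decide +kernel,
      by decide +kernel⟩
  · exact ⟨5, by omega, by decide +kernel, by decide +kernel, by decide +kernel,
      by decide +kernel⟩

theorem goodD_of_MD {m : Nat} (h : MD m) (q : DU) (hq : q ∈ du) :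
    goodD (m % 2 ^ 20) (m / 2 ^ 20 % 2 ^ 15) q := by
  obtain ⟨u, hu, hk⟩ := okd_all q hq
  obtain ⟨t, p⟩ := q
  obtain ⟨h1, h2, h3, h4⟩ := hk
  refine ⟨h1, ?_⟩
  have hd := h u hu
  unfold dgl at hd
  rw [h3.countP_eq, List.countP_append, List.countP_map] at hd
  have e6 : TL 6 = (List.range 15).map (20 + ·) := by decide +kernel
  rw [e6, List.countP_map, h4.countP_eq, List.countP_append] at hd
  have a1 : t.countP (fun t => m.testBit t) = t.countP (fun x => (m % 2 ^ 20).testBit x) := by
    refine List.countP_congr fun x hx => ?_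
    rw [Nat.testBit_mod_two_pow, decide_eq_true (h2 x hx), Bool.true_and]
  have a2 : p.countP ((fun t => m.testBit t) ∘ (20 + ·)) =
      p.countP (fun x => (m / 2 ^ 20 % 2 ^ 15).testBit x) := by
    refine List.countP_congr fun x hx => ?_
    rw [Nat.testBit_mod_two_pow, decide_eq_true (h1 x hx), Bool.true_and,
      Nat.testBit_div_two_pow, Nat.add_comm x 20]
    rfl
  rw [← a1, ← a2]
  omega

end KE
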